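import Pool.Agent.W492.BB.Real

set_option autoImplicit false

/-!
# Bloch-Beilinson filtrations: reduction to the middle-dimensional cycles on the varieties of a
# family, one at a time. Definitions
-/

open CategoryTheory AlgebraicGeometry

universe u v w

namespace Run7.h388.BB

open Pool.Agent.H914 Pool.Agent.H914.VarClass Pool.Agent.H914.VarClass.Obj
open Pool.Agent.W492.BB

variable {k : Type u} [Field k] {𝒱 : VarClass k} {C : TheoryData.{u, v, 0} 𝒱 ℚ} {K : Type w}
  [Field K]

/-- The Chow groups of `P` contain those of `X`, with codimensions shifted by `e`: there are a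
correspondence `a` from `X` to `P` of degree `e` and a correspondence `b` from `P` to `X` of degree
`-e` such that `b_* a_*` is the identity. -/
def Contains (C : TheoryData.{u, v, 0} 𝒱 ℚ) (e : ℕ) (P X : 𝒱.Obj) : Prop :=
  ∃ (a : C.A (X.prod P)) (b : C.A (P.prod X)), C.Deg (X.dim + e) a ∧ C.Deg (P.dim - e) b ∧
    ∀ x, C.act b (C.act a x) = x

/-- A class in `CH^m(P)`, `m ≥ e`, is zero if all correspondences of degree `-e` from `P` to other
varieties map it to zero. -/
def Detected (C : TheoryData.{u, v, 0} 𝒱 ℚ) (e : ℕ) (P : 𝒱.Obj) : Prop :=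
  ∀ m : ℕ, e ≤ m → ∀ x : C.A P, C.Deg m x →
    (∀ (T : 𝒱.Obj) (α : C.A (P.prod T)), C.Deg (P.dim - e) α → C.act α x = 0) → x = 0

/-- The conditions on the family `S` of varieties, for the number `e`:
1. the Chow groups of every variety `X` are contained, with codimensions shifted by `e`, in those of
  a variety of the family;
2. the family is stable under the product with some curve `L`;
3. the classes in `CH^m(P)`, `P ∈ S`, `m ≥ e`, are detected by the correspondences of degree `-e`;
4. homologically trivial classes in `CH^e(P)`, `P ∈ S`, are zero.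

For `e = 0` and Chow groups with rational coefficients, 3 and 4 are always satisfied, and 1 is
satisfied if every variety is dominated by a variety of the family. For `e = 1` and an algebraically
closed field `k`, the family of all smooth projective rational varieties satisfies the conditions:
1. the blow-up of a projective space along `X`, 2. the projective line, 3. the decomposition of the
diagonal of Bloch and Srinivas, 4. the Picard variety is trivial. -/
structure IsFamily (H : WeilTheoryData.{u, v, w} C K) (e : ℕ) (S : Set 𝒱.Obj) : Prop where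
  contains : ∀ X, ∃ P ∈ S, Contains C e P X
  curve : ∃ L : 𝒱.Obj, L.dim = 1 ∧ ∀ P ∈ S, P.prod L ∈ S
  detected : ∀ P ∈ S, Detected C e P
  hom_zero : ∀ P ∈ S, ∀ x : C.A P, C.Deg e x → H.cl x = 0 → x = 0

/-- Filtrations of the Chow groups of the variety `P` alone: the first step consists of the
homologically trivial classes, the filtration of `CH^m(P)` stops with the step `m + 1`, and already
with the step `m + 1 - e` if `m ≥ e`, the self-correspondences of `P` respect it, and a
self-correspondence of degree zero which is admissible in degree `2m - ν` maps `F^ν CH^m(P)` to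
`F^(ν+1) CH^m(P)`. (The values of `F` on the varieties other than `P` do not matter.) -/
structure IsLocalBB (H : WeilTheoryData.{u, v, w} C K) (e : ℕ) (P : 𝒱.Obj) (F : Filtration C) :
    Prop where
  zero : ∀ (m : ℕ) (x : C.A P), F.Mem m 0 x ↔ C.Deg m x
  one : ∀ (m : ℕ) (x : C.A P), F.Mem m 1 x ↔ C.Deg m x ∧ H.cl x = 0
  top : ∀ (m : ℕ) (x : C.A P), F.Mem m (m + 1) x → x = 0
  top_sub : ∀ (m : ℕ) (x : C.A P), F.Mem (m + e) (m + 1) x → x = 0
  corr : ∀ (j i ν : ℕ) (Γ : C.A (P.prod P)), C.Deg (P.dim + i - j) Γ →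
    ∀ x, F.Mem j ν x → F.Mem i ν (C.act Γ x)
  shift : ∀ (m ν : ℕ) (Γ : C.A (P.prod P)), C.Deg P.dim Γ → Admissible H Γ (2 * m - ν) →
    ∀ x, F.Mem m ν x → F.Mem m (ν + 1) (C.act Γ x)

/-- A filtration `F 0 ⊇ F 1 ⊇ …` of the single group `CH^m(P)`: it starts with `CH^m(P)` and the
homologically trivial classes, a self-correspondence of degree zero which is admissible in degree
`2m - ν` maps `F ν` to `F (ν + 1)`, and the self-correspondences which lower the codimension to
`n + e ≤ m` kill `F (n + 1)`. (In particular `F (m + 1 - e) = 0`.) -/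
structure IsMidFiltration (H : WeilTheoryData.{u, v, w} C K) (e : ℕ) (P : 𝒱.Obj) (m : ℕ)
    (F : ℕ → Submodule ℚ (C.A P)) : Prop where
  zero : ∀ x, x ∈ F 0 ↔ C.Deg m x
  one : ∀ x, x ∈ F 1 ↔ C.Deg m x ∧ H.cl x = 0
  anti : ∀ ν, F (ν + 1) ≤ F ν
  shift : ∀ (ν : ℕ) (Γ : C.A (P.prod P)), C.Deg P.dim Γ → Admissible H Γ (2 * m - ν) →
    ∀ x ∈ F ν, C.act Γ x ∈ F (ν + 1)
  kill : ∀ n : ℕ, n + e ≤ m → ∀ Δ : C.A (P.prod P), C.Deg (P.dim + (n + e) - m) Δ →
    ∀ x ∈ F (n + 1), C.act Δ x = 0

/-- `run Γ z n = (Γ (n-1))_* … (Γ 1)_* (Γ 0)_* z`, for self-correspondences `Γ 0, Γ 1, …` of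
`P`. -/
noncomputable def run {P : 𝒱.Obj} (Γ : ℕ → C.A (P.prod P)) (z : C.A P) : ℕ → C.A P
  | 0 => z
  | n + 1 => C.act (Γ n) (run Γ z n)

/-- The vanishing condition for the group `CH^m(P)`. Let `n ≥ 1`, `n + e ≤ m`, let `z` be a class of
codimension `m`, let `Γ 0, …, Γ n` be self-correspondences of `P` of degree zero such that `Γ ν` is
admissible in degree `2m - ν`, and let `Δ` be a self-correspondence which lowers the codimension
from `m` to `n + e`. Then `Δ_* (Γ n)_* … (Γ 0)_* z = 0` in `CH^(n+e)(P)`. -/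
def Vanishing (H : WeilTheoryData.{u, v, w} C K) (e : ℕ) (P : 𝒱.Obj) (m : ℕ) : Prop :=
  ∀ n : ℕ, 1 ≤ n → n + e ≤ m → ∀ (z : C.A P) (Γ : ℕ → C.A (P.prod P)) (Δ : C.A (P.prod P)),
    C.Deg m z → (∀ ν, ν ≤ n → C.Deg P.dim (Γ ν) ∧ Admissible H (Γ ν) (2 * m - ν)) →
    C.Deg (P.dim + (n + e) - m) Δ → C.act Δ (run Γ z (n + 1)) = 0

end Run7.h388.BB
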