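import Pool.Agent.Run7.h388.BB.Defs

set_option autoImplicit false
set_option linter.unusedSectionVars false
set_option linter.unusedVariables false

/-!
# The filtration which is generated by chains of correspondences
-/

open CategoryTheory AlgebraicGeometry

universe u v w

namespace Run7.h388.BB

open Pool.Agent.H914 Pool.Agent.H914.VarClass Pool.Agent.H914.VarClass.Obj
open Pool.Agent.W492.BB

variable {k : Type u} [Field k] {𝒱 : VarClass k} {C : TheoryData.{u, v, 0} 𝒱 ℚ} {K : Type w}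
  [Field K] {H : WeilTheoryData.{u, v, w} C K} [hC : IsChow C] [hH : IsWeil H]

section basic

lemma deg_cast {X : 𝒱.Obj} {a b : ℤ} (h : a = b) {x : C.A X} (hx : C.Deg a x) : C.Deg b x := h ▸ hx

lemma act_deg {X Y : 𝒱.Obj} {j i : ℕ} {Γ : C.A (X.prod Y)} (hΓ : C.Deg (X.dim + i - j) Γ)
    {x : C.A X} (hx : C.Deg j x) : C.Deg i (C.act Γ x) := by
  have h1 : Γ ∈ C.gr (X.prod Y) (X.dim + ((i : ℤ) - j)) := deg_cast (by ring) hΓ
  exact deg_cast (by ring) (act_mem h1 hx)

lemma adm_cast {X Y : 𝒱.Obj} {Γ : C.A (X.prod Y)} {a b : ℤ} (h : a = b)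
    (hx : Admissible H Γ a) : Admissible H Γ b := h ▸ hx

/-- If `Θ` acts on the cohomology of `P` as `ψ'' ψ' ψ` and `ψ'` comes from an admissible
correspondence, then `Θ` is admissible. -/
lemma adm_comp {P Z X Q : 𝒱.Obj} {rho : C.A (P.prod Z)} {Γ : C.A (Z.prod X)} {lam : C.A (X.prod Q)}
    {Θ : C.A (P.prod Q)} {r d d' : ℤ} (hrho : rho ∈ C.gr (P.prod Z) (P.dim + r))
    (hd : d + 2 * r = d') (had : Admissible H Γ d')
    (hΘ : ∀ a, H.act (H.cl Θ) a = H.act (H.cl lam) (H.act (H.cl Γ) (H.act (H.cl rho) a))) :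
    Admissible H Θ d := by
  rcases had with had | ⟨hK, had⟩
  · refine Or.inl fun l a ha => ?_
    rw [hΘ, had _ _ (actH_mem H hrho ha), TheoryData.act_map_zero]
  · refine Or.inr ⟨hK, fun a ha => ?_⟩
    have h1 := actH_mem H hrho ha
    rw [hd] at h1
    rw [hΘ, had _ h1, TheoryData.act_map_zero]

lemma adm_post {Z X Y : 𝒱.Obj} {Γ : C.A (Z.prod X)} {Δ : C.A (X.prod Y)} {Θ : C.A (Z.prod Y)}
    {d : ℤ} (had : Admissible H Γ d)
    (hΘ : ∀ a, H.act (H.cl Θ) a = H.act (H.cl Δ) (H.act (H.cl Γ) a)) :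
    Admissible H Θ d := by
  rcases had with had | ⟨hK, had⟩
  · exact Or.inl fun l a ha => by rw [hΘ, had _ _ ha, TheoryData.act_map_zero]
  · exact Or.inr ⟨hK, fun a ha => by rw [hΘ, had _ ha, TheoryData.act_map_zero]⟩

end basic

section chains

include hC hH

lemma Chain.deg {n : ℕ} {X : 𝒱.Obj} {i : ℕ} {x : C.A X} (h : Chain H n X i x) : C.Deg i x := by
  induction h with
  | nil X i x hx => exact hx
  | cons r Z X j i z Γ hz hΓ had ih => exact act_deg hΓ ih

lemma Chain.corr {n : ℕ} {X : 𝒱.Obj} {i : ℕ} {x : C.A X} (h : Chain H n X i x) {Y : 𝒱.Obj} {i' : ℕ}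
    {Δ : C.A (X.prod Y)} (hΔ : C.Deg (X.dim + i' - i) Δ) : Chain H n Y i' (C.act Δ x) := by
  cases h with
  | nil X i x hx => exact .nil _ _ _ (act_deg hΔ hx)
  | cons r Z X j i z Γ hz hΓ had =>
    have r1 : Realised H Z X ((i : ℤ) - j) (C.act Γ) (H.act (H.cl Γ)) :=
      Realised.of (deg_cast (by ring) hΓ)
    have r2 : Realised H X Y ((i' : ℤ) - i) (C.act Δ) (H.act (H.cl Δ)) :=
      Realised.of (deg_cast (by ring) hΔ)
    obtain ⟨Θ, h1, h2, h3⟩ := r1.comp r2
    have h4 : C.act Θ z = C.act Δ (C.act Γ z) := h2 z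
    rw [← h4]
    exact .cons r Z Y j i' z Θ hz (deg_cast (by ring) h1) (adm_post had h3)

variable (H) in
omit hC hH in
/-- the step `F^n CH^i(X)` generated by the chains -/
noncomputable def stp (X : 𝒱.Obj) (i n : ℕ) : Submodule ℚ (C.A X) :=
  Submodule.span ℚ {x | Chain H n X i x}

omit hC hH in
lemma stp_sub {X Y : 𝒱.Obj} {i n : ℕ} {V : Submodule ℚ (C.A Y)} (f : C.A X →ₗ[ℚ] C.A Y)
    (h : ∀ x, Chain H n X i x → f x ∈ V) {x : C.A X} (hx : x ∈ stp H X i n) : f x ∈ V := by
  have h1 : stp H X i n ≤ V.comap f := Submodule.span_le.2 fun x hx => h x hx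
  exact h1 hx

lemma stp_deg {X : 𝒱.Obj} {i n : ℕ} {x : C.A X} (hx : x ∈ stp H X i n) : C.Deg i x :=
  stp_sub LinearMap.id (fun x h => Chain.deg h) hx

lemma stp_zero {X : 𝒱.Obj} {i : ℕ} {x : C.A X} : x ∈ stp H X i 0 ↔ C.Deg i x :=
  ⟨fun h => stp_deg h, fun h => Submodule.subset_span (.nil _ _ _ h)⟩

lemma stp_corr {X Y : 𝒱.Obj} {j i n : ℕ} {Γ : C.A (X.prod Y)} (hΓ : C.Deg (X.dim + i - j) Γ)
    {x : C.A X} (hx : x ∈ stp H X j n) : C.act Γ x ∈ stp H Y i n :=
  stp_sub (C.actL Γ) (fun x h => Submodule.subset_span (Chain.corr h hΓ)) hx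

lemma stp_shift {X Y : 𝒱.Obj} {j i n : ℕ} {Γ : C.A (X.prod Y)} (hΓ : C.Deg (X.dim + i - j) Γ)
    (had : Admissible H Γ (2 * j - n)) {x : C.A X} (hx : x ∈ stp H X j n) :
    C.act Γ x ∈ stp H Y i (n + 1) :=
  stp_sub (C.actL Γ) (fun x h => Submodule.subset_span (.cons _ _ _ _ _ _ _ h hΓ had)) hx

lemma stp_succ_le (X : 𝒱.Obj) (i n : ℕ) : stp H X i (n + 1) ≤ stp H X i n := by
  refine Submodule.span_le.2 fun x hx => ?_
  have hx' : Chain H (n + 1) X i x := hx
  generalize h2 : n + 1 = N at hx'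
  cases hx' with
  | nil X i x hi => omega
  | cons r Z X j i z Γ hz hΓ hk =>
    obtain rfl : r = n := by omega
    exact stp_corr hΓ (Submodule.subset_span hz)

lemma stp_anti {X : 𝒱.Obj} {i m n : ℕ} (h : m ≤ n) : stp H X i n ≤ stp H X i m := by
  induction n, h using Nat.le_induction with
  | base => exact le_rfl
  | succ n hn ih => exact (stp_succ_le X i n).trans ih

variable (H) in
lemma cl_smul {X : 𝒱.Obj} (q : ℚ) (x : C.A X) (hx : H.cl x = 0) : H.cl (q • x) = 0 := by
  have h : q • x = (q • (1 : C.A X)) * x := by rw [smul_mul_assoc, one_mul]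
  rw [h, map_mul, hx, mul_zero]

lemma stp_one {X : 𝒱.Obj} {i : ℕ} {x : C.A X} : x ∈ stp H X i 1 ↔ C.Deg i x ∧ H.cl x = 0 := by
  constructor
  · intro hx
    refine ⟨stp_deg hx, ?_⟩
    refine Submodule.span_induction (p := fun x _ => H.cl x = 0) ?_ (map_zero _) ?_ ?_ hx
    · intro x hx
      have hx' : Chain H 1 X i x := hx
      generalize h2 : 1 = N at hx'
      cases hx' with
      | nil X i x hi => omega
      | cons r Z X j i z Γ hz hΓ hk =>
        obtain rfl : r = 0 := by omega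
        rw [cl_act]
        have hz' : H.Deg (2 * j) (H.cl z) := H.cl_mem (Chain.deg hz)
        rcases hk with hk | ⟨-, hk⟩
        · exact hk _ _ hz'
        · refine hk _ ?_
          have e : (2 * (j : ℤ) - (0 : ℕ)) = 2 * j := by push_cast; ring
          rw [e]
          exact hz'
    · intro x y _ _ hx hy
      rw [map_add, hx, hy, add_zero]
    · intro q x _ hx
      exact cl_smul H q x hx
  · rintro ⟨h1, h2⟩
    obtain ⟨z, hz, -, h3⟩ := exists_deg_one C X
    have h4 : C.act (C.pull (snd X X) x) z = x := by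
      rw [TheoryData.act_apply, C.proj_left, h3, mul_one]
    rw [← h4]
    refine Submodule.subset_span (.cons 0 X X X.dim i z _ (.nil _ _ _ hz) ?_ (Or.inl ?_))
    · exact deg_cast (by ring) (C.pull_mem _ h1)
    · intro l a _
      rw [H.cl_pull, h2, map_zero, TheoryData.act_zero]

variable (H) in
/-- the filtration generated by the chains -/
noncomputable def fil : Filtration C where
  F := fun X i n => stp H X i n
  le_gr := fun X i n x hx => stp_deg hx
  anti := fun X i n => stp_succ_le X i n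

end chains

end Run7.h388.BB
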