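import Pool.Agent.Run7.h388.BB.Transport

set_option autoImplicit false
set_option linter.unusedSectionVars false
set_option linter.unusedVariables false

/-!
# Bloch-Beilinson filtrations: the equivalence
-/

open CategoryTheory AlgebraicGeometry

universe u v w

namespace Run7.h388.BB

open Pool.Agent.H914 Pool.Agent.H914.VarClass Pool.Agent.H914.VarClass.Obj
open Pool.Agent.W492.BB

variable {k : Type u} [Field k] {𝒱 : VarClass k} {C : TheoryData.{u, v, 0} 𝒱 ℚ} {K : Type w}
  [Field K] {H : WeilTheoryData.{u, v, w} C K} [hC : IsChow C] [hH : IsWeil H]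

include hC hH

/-- A Bloch-Beilinson filtration is respected by the correspondences. -/
lemma bb_corr {F : Filtration C} (hF : IsBB H F) {X Y : 𝒱.Obj} {j i n : ℕ} {Γ : C.A (X.prod Y)}
    (hΓ : C.Deg (X.dim + i - j) Γ) {x : C.A X} (hx : F.Mem j n x) :
    F.Mem i n (C.act Γ x) := by
  by_cases h : j ≤ X.dim + i
  · have h1 : F.Mem (X.dim + i - j) 0 Γ :=
      (hF.bounded.zero _ _ _).2 (deg_cast (by push_cast [h]; ring) hΓ)
    have h2 := hF.multiplicative.mul h1 (hF.multiplicative.pull (fst X Y) hx)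
    rw [Nat.zero_add] at h2
    exact hF.multiplicative.push (snd X Y) (by rw [dim_prod]; omega) h2
  · have h1 : Γ ∈ C.gr (X.prod Y) (X.dim + i - j) := hΓ
    rw [C.gr_neg _ _ (by omega), Submodule.mem_bot] at h1
    rw [h1, TheoryData.act_zero]
    exact Submodule.zero_mem _

/-- A Bloch-Beilinson filtration is shifted by the admissible correspondences of degree zero. -/
lemma bb_shift {F : Filtration C} (hF : IsBB H F) {X : 𝒱.Obj} {j n : ℕ} {Γ : C.A (X.prod X)}
    (hΓ : C.Deg X.dim Γ) (had : Admissible H Γ (2 * j - n)) {x : C.A X} (hx : F.Mem j n x) :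
    F.Mem j (n + 1) (C.act Γ x) := by
  rcases had with had | ⟨hK, had⟩
  · have h0 : H.cl Γ = 0 := eq_zero_of_act H _ (act_eq_zero_of_kills H Γ had)
    have h1 : F.Mem X.dim 1 Γ := (hF.bounded.one _ _ _).2 ⟨hΓ, h0⟩
    have h2 := hF.multiplicative.mul h1 (hF.multiplicative.pull (fst X X) hx)
    rw [Nat.add_comm 1 n] at h2
    exact hF.multiplicative.push (snd X X) (by rw [dim_prod]; omega) h2
  · exact hF.motivic hK X j n Γ hΓ had x hx

lemma local_of_bb {F : Filtration C} (hF : IsBB H F) {e : ℕ} {P : 𝒱.Obj} (hP : Detected C e P) :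
    IsLocalBB H e P F where
  zero := hF.bounded.zero P
  one := hF.bounded.one P
  top := hF.bounded.top P
  top_sub := fun m x hx => by
    refine hP (m + e) (by omega) x (by exact_mod_cast F.le_gr _ _ _ hx) fun T α hα => ?_
    have hα' : C.Deg (P.dim + m - (m + e : ℕ)) α := deg_cast (by push_cast; ring) hα
    exact hF.bounded.top T m _ (bb_corr hF hα' hx)
  corr := fun j i ν Γ hΓ x hx => bb_corr hF hΓ hx
  shift := fun m ν Γ hΓ had x hx => bb_shift hF hΓ had hx

lemma mid_of_local {F : Filtration C} {e : ℕ} {P : 𝒱.Obj} (hF : IsLocalBB H e P F) (m : ℕ) :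
    IsMidFiltration H e P m (F.F P m) where
  zero := hF.zero m
  one := hF.one m
  anti := F.anti P m
  shift := hF.shift m
  kill := fun n hn Δ hΔ x hx =>
    hF.top_sub n _ (hF.corr m (n + e) (n + 1) Δ (deg_cast (by push_cast; ring) hΔ) _ hx)

lemma vanishing_of_mid {e m : ℕ} {P : 𝒱.Obj} {F : ℕ → Submodule ℚ (C.A P)}
    (hF : IsMidFiltration H e P m F) : Vanishing H e P m := by
  intro n _ hnm z Γ Δ hz hΓ hΔ
  have key : ∀ s, s ≤ n + 1 → run Γ z s ∈ F s := by
    intro s
    induction s with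
    | zero => intro _; exact (hF.zero z).2 hz
    | succ s ih =>
      intro hs
      obtain ⟨h3, h4⟩ := hΓ s (by omega)
      exact hF.shift s (Γ s) h3 h4 _ (ih (by omega))
  exact hF.kill n hnm Δ hΔ _ (key (n + 1) le_rfl)

variable (H) in
/-- The varieties of the family which contain a given one. -/
lemma family_dim {S : Set 𝒱.Obj} (hL : ∃ L : 𝒱.Obj, L.dim = 1 ∧ ∀ P ∈ S, P.prod L ∈ S)
    {P : 𝒱.Obj} (hP : P ∈ S) (s : ℕ) : ∃ P' ∈ S, P'.dim = P.dim + s ∧ Contains C s P' P ∧
      Contains C 0 P' P := by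
  obtain ⟨L, hL1, hL2⟩ := hL
  induction s with
  | zero =>
    have h : Contains C 0 P P := by
      obtain ⟨Γ, h1, h2, -⟩ := Realised.id (H := H) P
      exact ⟨Γ, Γ, deg_cast (by push_cast; ring) h1, deg_cast (by push_cast; ring) h1,
        fun x => by rw [h2, h2]⟩
    exact ⟨P, hP, rfl, h, h⟩
  | succ s ih =>
    obtain ⟨P', h1, h2, h3, h4⟩ := ih
    refine ⟨P'.prod L, hL2 P' h1, by rw [dim_prod, h2, hL1]; ring, ?_, ?_⟩
    · exact contains_trans H h3 (contains_twist H hL1)
    · exact contains_cast (by ring) (contains_trans H h4 (contains_fst H P' L))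

variable (H) in
/-- The varieties of the family which contain a given one, in the middle dimension. -/
lemma family_mid {S : Set 𝒱.Obj} (hL : ∃ L : 𝒱.Obj, L.dim = 1 ∧ ∀ P ∈ S, P.prod L ∈ S)
    {P Q X : 𝒱.Obj} (hP : P ∈ S) {e : ℕ} (hQ : Contains C e P Q) (hX : Contains C e P X) (M : ℕ) :
    ∃ P' ∈ S, ∃ t, P'.dim = 2 * (M + (e + t)) ∧ Contains C (e + t) P' Q ∧ Contains C e P' X := by
  rcases Nat.le_total (2 * (M + e)) P.dim with h | h
  · obtain ⟨P', h1, h2, h3, h4⟩ := family_dim H hL hP (P.dim - 2 * (M + e))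
    refine ⟨P', h1, P.dim - 2 * (M + e), by omega, contains_trans H hQ h3, ?_⟩
    exact contains_cast (by ring) (contains_trans H hX h4)
  · obtain ⟨P', h1, h2, h3, h4⟩ := family_dim H hL hP (2 * (M + e) - P.dim)
    refine ⟨P', h1, 0, by omega, contains_trans H hQ h4, ?_⟩
    exact contains_cast (by ring) (contains_trans H hX h4)

lemma top_of_vanishing {e : ℕ} {S : Set 𝒱.Obj} (hS : IsFamily H e S)
    (hv : ∀ P ∈ S, ∀ m, P.dim = 2 * m → Vanishing H e P m) : Top H := by
  intro X i x hx
  have hT : ∃ T : 𝒱.Obj, T.dim = 1 := by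
    obtain ⟨L, hL, -⟩ := hS.curve
    exact ⟨L, hL⟩
  have h1 : stp H X i (i + 1) ≤ ⊥ := by
    refine Submodule.span_le.2 ?_
    intro x hm
    show x = 0
    obtain ⟨M, hM⟩ := transport (H := H) hT hm
    obtain ⟨hiM, Q, hQ⟩ := hM M le_rfl
    obtain ⟨P₀, hPS₀, hP₀⟩ := hS.contains (Q.prod X)
    obtain ⟨P, hPS, t, hdim, hP1, hP2⟩ := family_mid H hS.curve hPS₀
      (contains_cast (by ring) (contains_trans H (contains_fst H Q X) hP₀))
      (contains_cast (by ring) (contains_trans H (contains_snd H Q X) hP₀)) M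
    obtain ⟨lam, rho, g1, g2, g3, g4⟩ := hQ P (e + t) hP1
    obtain ⟨th, th', t1, -, t2⟩ := hP2
    have r1 : Realised H P X ((i : ℤ) - (M + (e + t : ℕ))) (C.act rho) (H.act (H.cl rho)) :=
      Realised.of (deg_cast (by push_cast; ring) g2)
    obtain ⟨Θ, s1, s2, s3⟩ := r1.comp (Realised.of (H := H) t1)
    obtain ⟨z', Γ', u1, u2, u3⟩ := ev_run g4
    have h4 : C.act Θ (C.act lam x) = C.act th x := by
      have h5 : C.act Θ (C.act lam x) = C.act th (C.act rho (C.act lam x)) := s2 _
      rw [h5, g3]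
    have h6 : C.act th x = 0 := by
      rw [← h4, ← u3]
      have hΘ : C.Deg (P.dim + (i + e) - (M + (e + t) : ℕ)) Θ := deg_cast (by push_cast; ring) s1
      by_cases hi : 1 ≤ i
      · exact hv P hPS (M + (e + t)) hdim i hi (by omega) z' Γ' Θ u1
          (fun ν h5 => u2 ν (by omega)) hΘ
      · obtain rfl : i = 0 := by omega
        obtain ⟨v1, v2⟩ := u2 0 (by omega)
        have hy : C.Deg (M + (e + t) : ℕ) (C.act (Γ' 0) z') :=
          act_deg (i := M + (e + t)) (deg_cast (by push_cast; ring) v1) u1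
        have hy0 : H.cl (C.act (Γ' 0) z') = 0 := by
          rw [cl_act]
          have hz' := H.cl_mem u1
          rcases v2 with hk | ⟨-, hk⟩
          · exact hk _ _ hz'
          · refine hk _ ?_
            have e : (2 * ((M + (e + t) : ℕ) : ℤ) - (0 : ℕ)) = 2 * ((M + (e + t) : ℕ) : ℤ) := by
              push_cast; ring
            rw [e]
            exact hz'
        refine hS.hom_zero P hPS _ ?_ ?_
        · exact act_deg (i := e) (deg_cast (by push_cast; ring) hΘ) hy
        · show H.cl (C.act Θ (C.act (Γ' 0) z')) = 0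
          rw [cl_act, hy0, TheoryData.act_map_zero]
    rw [← t2 x, h6, TheoryData.act_map_zero]
  exact (Submodule.mem_bot ℚ).1 (h1 hx)

/-- The equivalence of the existence of a Bloch-Beilinson filtration for all varieties, of the
existence for one variety of `S` at a time, of the existence of a filtration of the single groups
`CH^m(P)`, where `P` is a variety of `S` of dimension `2m`, and of the vanishing condition for these
groups. -/
theorem main (e : ℕ) (S : Set 𝒱.Obj) (hS : IsFamily H e S) :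
    List.TFAE [∃ F : Filtration C, IsBB H F,
      ∀ P ∈ S, ∃ F : Filtration C, IsLocalBB H e P F,
      ∀ P ∈ S, ∀ m, P.dim = 2 * m → ∃ F : ℕ → Submodule ℚ (C.A P), IsMidFiltration H e P m F,
      ∀ P ∈ S, ∀ m, P.dim = 2 * m → Vanishing H e P m] := by
  tfae_have 1 → 2 := by
    rintro ⟨F, hF⟩ P hP
    exact ⟨F, local_of_bb hF (hS.detected P hP)⟩
  tfae_have 2 → 3 := fun h P hP m _ => by
    obtain ⟨F, hF⟩ := h P hP
    exact ⟨_, mid_of_local hF m⟩
  tfae_have 3 → 4 := fun h P hP m hm => by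
    obtain ⟨F, hF⟩ := h P hP m hm
    exact vanishing_of_mid hF
  tfae_have 4 → 1 := fun h => ⟨fil H, fil_isBB (top_of_vanishing hS h)⟩
  tfae_finish

end Run7.h388.BB
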