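import Pool.Agent.Run7.h388.BB.Fil

set_option autoImplicit false
set_option linter.unusedSectionVars false
set_option linter.unusedVariables false

/-!
# The filtration which is generated by chains of correspondences is multiplicative
-/

open CategoryTheory AlgebraicGeometry

universe u v w

namespace Run7.h388.BB

open Pool.Agent.H914 Pool.Agent.H914.VarClass Pool.Agent.H914.VarClass.Obj
open Pool.Agent.W492.BB

variable {k : Type u} [Field k] {𝒱 : VarClass k} {C : TheoryData.{u, v, 0} 𝒱 ℚ} {K : Type w}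
  [Field K] {H : WeilTheoryData.{u, v, w} C K} [hC : IsChow C] [hH : IsWeil H]

/-- the external product as a linear map in the first variable -/
noncomputable def extX {X Y : 𝒱.Obj} (y : C.A Y) : C.A X →ₗ[ℚ] C.A (X.prod Y) :=
  LinearMap.mulRight ℚ (C.pull (snd X Y) y) ∘ₗ (C.pull (fst X Y)).toLinearMap

/-- the external product as a linear map in the second variable -/
noncomputable def extY {X Y : 𝒱.Obj} (x : C.A X) : C.A Y →ₗ[ℚ] C.A (X.prod Y) :=
  LinearMap.mulLeft ℚ (C.pull (fst X Y) x) ∘ₗ (C.pull (snd X Y)).toLinearMap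

lemma extX_apply {X Y : 𝒱.Obj} (y : C.A Y) (x : C.A X) : extX y x = C.ext x y := rfl
lemma extY_apply {X Y : 𝒱.Obj} (x : C.A X) (y : C.A Y) : extY x y = C.ext x y := rfl

include hC hH

/-- A chain times a class, when all correspondences are homologically trivial. -/
lemma ext_stp_hom (hK : ¬ KunnethConjecture H) {X Y : 𝒱.Obj} {i j m n : ℕ} {x : C.A X} {y : C.A Y}
    (hx : x ∈ stp H X i m) (hy : y ∈ stp H Y j n) :
    C.ext x y ∈ stp H (X.prod Y) (i + j) (m + n) := by
  refine stp_sub (extX y) (fun x' h => ?_) hx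
  rw [extX_apply]
  clear hx x
  induction h with
  | nil X i x hx =>
    have hx' : x ∈ C.gr X i := hx
    obtain ⟨Γ, h1, h2, -⟩ := (Realised.pull (H := H) (snd X Y)).comp
      (Realised.mul (H := H) (C.pull_mem (fst X Y) hx'))
    have h3 : C.act Γ y = C.ext x y := h2 y
    rw [← h3, zero_add]
    exact stp_corr (deg_cast (by push_cast; ring) h1) hy
  | cons r Z X j' i z Γ hz hΓ had ih =>
    have hΓ' : Γ ∈ C.gr (Z.prod X) (Z.dim + ((i : ℤ) - j')) := deg_cast (by ring) hΓ
    obtain ⟨Θ, h1, h2, h3⟩ := Realised.extL (H := H) hΓ' Y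
    have h4 : C.act Θ (C.ext z y) = C.ext (C.act Γ z) y := by
      rw [h2, C.extL_ext]
    rw [← h4]
    have e : r + 1 + n = r + n + 1 := by ring
    rw [e]
    refine stp_shift (deg_cast (by push_cast; ring) h1) (Or.inl fun l a _ => ?_) ih
    have h5 : H.cl Γ = 0 := by
      rcases had with had | ⟨h6, -⟩
      · exact eq_zero_of_act H _ (act_eq_zero_of_kills H Γ had)
      · exact absurd h6 hK
    rw [h3, TheoryData.extL, h5, map_zero, zero_mul, map_zero]

/-- The projector to `H^d(X)` on Chow groups and on cohomology: two properties. -/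
lemma exists_proj (hK : KunnethConjecture H) (X : 𝒱.Obj) {i n : ℕ} (hn : n ≤ i) :
    ∃ π ∈ C.gr (X.prod X) X.dim, (∀ (l : ℤ) (a : H.A X), H.Deg l a → l ≠ 2 * i - n →
      H.act (H.cl π) a = 0) ∧ ∀ x ∈ stp H X i n, C.act π x ∈ stp H X i n ∧
        x - C.act π x ∈ stp H X i (n + 1) := by
  obtain ⟨π, h1, h2⟩ := hK X (2 * i - n)
  have e : ((2 * i - n : ℕ) : ℤ) = 2 * i - n := by
    rw [Nat.cast_sub (by omega)]; push_cast; ring
  have h1' : π ∈ C.gr (X.prod X) (X.dim + 0) := deg_cast (by ring) h1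
  refine ⟨π, h1, fun l a ha hl => ?_, fun x hx => ⟨?_, ?_⟩⟩
  · rw [h2 l a ha, if_neg]
    rw [e]
    exact hl
  · exact stp_corr (deg_cast (by ring) h1) hx
  · obtain ⟨Θ, h3, h4, h5⟩ := (Realised.id (H := H) X).sub (Realised.of (H := H) h1')
    have h6 : C.act Θ x = x - C.act π x := h4 x
    rw [← h6]
    refine stp_shift (deg_cast (by ring) h3) (Or.inr ⟨hK, fun a ha => ?_⟩) hx
    have h7 : H.act (H.cl Θ) a = a - H.act (H.cl π) a := h5 a
    rw [h7, h2 _ a ha, if_pos e.symm, sub_self]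

/-- The iterates of a projector. -/
lemma iterate_proj {X : 𝒱.Obj} {i n : ℕ} {π : C.A (X.prod X)}
    (h : ∀ x ∈ stp H X i n, C.act π x ∈ stp H X i n ∧ x - C.act π x ∈ stp H X i (n + 1))
    {x : C.A X} (hx : x ∈ stp H X i n) (L : ℕ) :
    (C.act π)^[L] x ∈ stp H X i n ∧ x - (C.act π)^[L] x ∈ stp H X i (n + 1) := by
  induction L with
  | zero => exact ⟨hx, by rw [Function.iterate_zero, id, sub_self]; exact Submodule.zero_mem _⟩
  | succ L ih =>
    rw [Function.iterate_succ', Function.comp]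
    refine ⟨(h _ ih.1).1, ?_⟩
    have e : x - C.act π ((C.act π)^[L] x) = (x - (C.act π)^[L] x) +
        ((C.act π)^[L] x - C.act π ((C.act π)^[L] x)) := by abel
    rw [e]
    exact Submodule.add_mem _ ih.2 (h _ ih.1).2

/-- The product of two projectors. -/
lemma ext_iterate (hK : KunnethConjecture H) {X Y : 𝒱.Obj} {i j m n : ℕ}
    {π : C.A (X.prod X)} {π' : C.A (Y.prod Y)} (h1 : π ∈ C.gr (X.prod X) X.dim)
    (h1' : π' ∈ C.gr (Y.prod Y) Y.dim)
    (h2 : ∀ (l : ℤ) (a : H.A X), H.Deg l a → l ≠ 2 * i - m → H.act (H.cl π) a = 0)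
    (h2' : ∀ (l : ℤ) (a : H.A Y), H.Deg l a → l ≠ 2 * j - n → H.act (H.cl π') a = 0)
    {x : C.A X} {y : C.A Y} (hx : C.Deg i x) (hy : C.Deg j y) :
    ∀ L : ℕ, L ≤ m + n →
      C.ext ((C.act π)^[L] x) ((C.act π')^[L] y) ∈ stp H (X.prod Y) (i + j) L := by
  have g1 : π ∈ C.gr (X.prod X) (X.dim + 0) := deg_cast (by ring) h1
  have g1' : π' ∈ C.gr (Y.prod Y) (Y.dim + 0) := deg_cast (by ring) h1'
  obtain ⟨Θ, t1, t2, t3⟩ := (Realised.extL (H := H) g1 Y).comp (Realised.extR (H := H) g1' X)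
  have t4 : ∀ (x : C.A X) (y : C.A Y), C.act Θ (C.ext x y) = C.ext (C.act π x) (C.act π' y) := by
    intro x y
    have h3 : C.act Θ (C.ext x y) = C.extR π' X (C.extL π Y (C.ext x y)) := t2 _
    rw [h3, C.extL_ext, C.extR_ext _ (fun c => chow_mul_comm _ _)]
  have t5 : ∀ (a : H.A X) (b : H.A Y),
      H.act (H.cl Θ) (H.ext a b) = H.ext (H.act (H.cl π) a) (H.act (H.cl π') b) := by
    intro a b
    have h3 : H.act (H.cl Θ) (H.ext a b) = H.extR (H.cl π') X (H.extL (H.cl π) Y (H.ext a b)) :=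
      t3 _
    rw [h3, H.extL_ext, H.extR_ext]
    intro c
    rw [← H.cl_pull]
    exact H.cl_central _ _
  intro L
  induction L with
  | zero =>
    intro _
    rw [stp_zero]
    exact deg_cast (by push_cast; ring) (C.mul_mem (C.pull_mem (fst X Y) hx)
      (C.pull_mem (snd X Y) hy))
  | succ L ih =>
    intro hL
    rw [Function.iterate_succ', Function.iterate_succ', Function.comp, Function.comp, ← t4]
    refine stp_shift (deg_cast (by push_cast; ring) t1) (Or.inr ⟨hK, fun c hc => ?_⟩)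
      (ih (by omega))
    have h3 := H.kunneth X Y _ hc
    refine Submodule.span_induction (p := fun c _ => H.actL (H.cl Θ) c = 0) ?_ (map_zero _)
      (fun a b _ _ ha hb => by rw [map_add, ha, hb, add_zero])
      (fun q a _ ha => by rw [map_smul, ha, smul_zero]) h3
    rintro _ ⟨l, a, b, ha, hb, rfl⟩
    show H.act (H.cl Θ) (H.ext a b) = 0
    rw [t5]
    by_cases hl : l = 2 * i - m
    · rw [h2' _ b hb (by push_cast; omega), TheoryData.ext_zero_right]
    · rw [h2 _ a ha hl, TheoryData.ext_zero_left]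

omit hC hH in
variable (H) in
/-- the filtrations terminate -/
def Top : Prop := ∀ (X : 𝒱.Obj) (i : ℕ) (x : C.A X), x ∈ stp H X i (i + 1) → x = 0

/-- The external product of two classes, when the Kunneth conjecture holds. -/
lemma ext_stp_kun (hK : KunnethConjecture H) (hT : Top H) {X Y : 𝒱.Obj} {i j : ℕ} :
    ∀ (d m n : ℕ), (i + 1 - m) + (j + 1 - n) ≤ d → ∀ (x : C.A X) (y : C.A Y),
      x ∈ stp H X i m → y ∈ stp H Y j n → C.ext x y ∈ stp H (X.prod Y) (i + j) (m + n) := by
  have hvx : ∀ (m : ℕ), i + 1 ≤ m → ∀ (x : C.A X), x ∈ stp H X i m → x = 0 :=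
    fun m hm x hx => hT X i x (stp_anti hm hx)
  have hvy : ∀ (n : ℕ), j + 1 ≤ n → ∀ (y : C.A Y), y ∈ stp H Y j n → y = 0 :=
    fun n hn y hy => hT Y j y (stp_anti hn hy)
  intro d
  induction d with
  | zero =>
    intro m n hd x y hx hy
    rw [hvx m (by omega) x hx, TheoryData.ext_zero_left]
    exact Submodule.zero_mem _
  | succ d ih =>
    intro m n hd x y hx hy
    by_cases hm : i + 1 ≤ m
    · rw [hvx m hm x hx, TheoryData.ext_zero_left]
      exact Submodule.zero_mem _
    by_cases hn : j + 1 ≤ n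
    · rw [hvy n hn y hy, TheoryData.ext_zero_right]
      exact Submodule.zero_mem _
    obtain ⟨π, h1, h2, h3⟩ := exists_proj (H := H) hK X (i := i) (n := m) (by omega)
    obtain ⟨π', h1', h2', h3'⟩ := exists_proj (H := H) hK Y (i := j) (n := n) (by omega)
    obtain ⟨u1, u2⟩ := iterate_proj h3 hx (m + n)
    obtain ⟨w1, w2⟩ := iterate_proj h3' hy (m + n)
    have g1 := ih (m + 1) n (by omega) _ y u2 hy
    have g2 := ih m (n + 1) (by omega) _ _ u1 w2
    have g3 := ext_iterate hK h1 h1' h2 h2' (stp_deg hx) (stp_deg hy) (m + n) le_rfl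
    have e : C.ext x y = C.ext (x - (C.act π)^[m + n] x) y +
        (C.ext ((C.act π)^[m + n] x) (y - (C.act π')^[m + n] y) +
          C.ext ((C.act π)^[m + n] x) ((C.act π')^[m + n] y)) := by
      rw [← extX_apply, ← extX_apply, ← extY_apply, ← extY_apply, ← map_add, sub_add_cancel,
        extY_apply, ← extX_apply, ← map_add, sub_add_cancel]
    rw [e]
    refine Submodule.add_mem _ (stp_anti (by omega) g1) (Submodule.add_mem _ ?_ g3)
    exact stp_anti (by omega) g2

lemma ext_stp (hT : Top H) {X Y : 𝒱.Obj} {i j m n : ℕ} {x : C.A X} {y : C.A Y}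
    (hx : x ∈ stp H X i m) (hy : y ∈ stp H Y j n) :
    C.ext x y ∈ stp H (X.prod Y) (i + j) (m + n) := by
  by_cases hK : KunnethConjecture H
  · exact ext_stp_kun hK hT _ m n le_rfl x y hx hy
  · exact ext_stp_hom hK hx hy

omit hH in
lemma mul_eq_ext {X : 𝒱.Obj} (x y : C.A X) :
    C.pull (Obj.lift (𝟙 X) (𝟙 X)) (C.ext x y) = x * y := by
  rw [TheoryData.ext, map_mul, ← C.pull_comp, ← C.pull_comp, lift_fst, lift_snd, C.pull_id,
    C.pull_id]

lemma stp_pull {X Y : 𝒱.Obj} (f : X ⟶ Y) {i n : ℕ} {y : C.A Y} (hy : y ∈ stp H Y i n) :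
    C.pull f y ∈ stp H X i n := by
  obtain ⟨Γ, h1, h2, -⟩ := Realised.pull (H := H) f
  rw [← h2]
  exact stp_corr (deg_cast (by ring) h1) hy

/-- The filtration generated by the chains is a Bloch-Beilinson filtration if it terminates. -/
lemma fil_isBB (hT : Top H) : IsBB H (fil H) where
  bounded := {
    zero := fun X i x => stp_zero
    one := fun X i x => stp_one
    top := fun X i x => hT X i x }
  multiplicative := {
    mul := fun {X i j m n x y} hx hy => by
      have h1 := stp_pull (Obj.lift (𝟙 X) (𝟙 X)) (ext_stp hT hx hy)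
      rw [mul_eq_ext] at h1
      exact h1
    pull := fun f _ _ _ hy => stp_pull f hy
    push := fun {X Y} f {i j n x} hij hx => by
      obtain ⟨Γ, h1, h2, -⟩ := Realised.push (H := H) f
      have h3 : C.down f x = C.act Γ x := (h2 x).symm
      rw [h3]
      refine stp_corr (deg_cast ?_ h1) hx
      have h4 : (i : ℤ) + Y.dim = j + X.dim := by exact_mod_cast hij
      linarith }
  motivic := fun hK X i n Γ hΓ hk x hx => stp_shift (deg_cast (by ring) hΓ) (Or.inr ⟨hK, hk⟩) hx

end Run7.h388.BB
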