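import Pool.Agent.Run7.h388.BB.Mul

set_option autoImplicit false
set_option linter.unusedSectionVars false
set_option linter.unusedVariables false

/-!
# The transport of chains to one variety
-/

open CategoryTheory AlgebraicGeometry

universe u v w

namespace Run7.h388.BB

open Pool.Agent.H914 Pool.Agent.H914.VarClass Pool.Agent.H914.VarClass.Obj
open Pool.Agent.W492.BB

variable {k : Type u} [Field k] {𝒱 : VarClass k} {C : TheoryData.{u, v, 0} 𝒱 ℚ} {K : Type w}
  [Field K] {H : WeilTheoryData.{u, v, w} C K} [hC : IsChow C] [hH : IsWeil H]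

section contains

variable (H) in
include hC hH in
lemma contains_trans {X Y Z : 𝒱.Obj} {d e : ℕ} (h : Contains C d Y X) (h' : Contains C e Z Y) :
    Contains C (d + e) Z X := by
  obtain ⟨a, b, ha, hb, h1⟩ := h
  obtain ⟨a', b', ha', hb', h2⟩ := h'
  have hb1 : b ∈ C.gr _ (Y.dim + (-(d : ℤ))) := deg_cast (by ring) hb
  have hb2 : b' ∈ C.gr _ (Z.dim + (-(e : ℤ))) := deg_cast (by ring) hb'
  obtain ⟨A, g1, g2, -⟩ := (Realised.of (H := H) ha).comp (Realised.of (H := H) ha')
  obtain ⟨B, g3, g4, -⟩ := (Realised.of (H := H) hb2).comp (Realised.of (H := H) hb1)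
  refine ⟨A, B, deg_cast (by push_cast; ring) g1, deg_cast (by push_cast; ring) g3, fun x => ?_⟩
  have h3 : C.act B (C.act A x) = C.act b (C.act b' (C.act a' (C.act a x))) := by rw [g4, g2]
  rw [h3, h2, h1]

variable (H) in
include hC hH in
/-- `X × T` contains `X` twisted by the dimension of `T`. -/
lemma contains_twist {X T : 𝒱.Obj} {r : ℕ} (hT : T.dim = r) : Contains C r (X.prod T) X := by
  obtain ⟨t, ht, h2, -⟩ := exists_deg_one C T
  obtain ⟨a, g1, g2, -⟩ := (Realised.pull (H := H) (fst X T)).comp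
    (Realised.mul (H := H) (C.pull_mem (snd X T) ht))
  obtain ⟨b, g3, g4, -⟩ := Realised.push (H := H) (fst X T)
  refine ⟨a, b, deg_cast (by rw [hT]; ring) g1, deg_cast ?_ g3, fun x => ?_⟩
  · rw [dim_prod, hT]
    push_cast
    ring
  · rw [g2, g4, C.proj_right, h2, one_mul]

variable (H) in
include hC hH in
lemma contains_fst (X Y : 𝒱.Obj) : Contains C 0 (X.prod Y) X := by
  obtain ⟨t, ht, h2, -⟩ := exists_deg_one C Y
  obtain ⟨a, g1, g2, -⟩ := Realised.pull (H := H) (fst X Y)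
  obtain ⟨b, g3, g4, -⟩ := (Realised.mul (H := H) (C.pull_mem (snd X Y) ht)).comp
    (Realised.push (H := H) (fst X Y))
  refine ⟨a, b, deg_cast (by push_cast; ring) g1, deg_cast ?_ g3, fun x => ?_⟩
  · rw [dim_prod]
    push_cast
    ring
  · rw [g2, g4]
    beta_reduce
    rw [C.proj_right, h2, one_mul]

variable (H) in
include hC hH in
lemma contains_snd (X Y : 𝒱.Obj) : Contains C 0 (X.prod Y) Y := by
  obtain ⟨t, ht, -, h2⟩ := exists_deg_one C X
  obtain ⟨a, g1, g2, -⟩ := Realised.pull (H := H) (snd X Y)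
  obtain ⟨b, g3, g4, -⟩ := (Realised.mul (H := H) (C.pull_mem (fst X Y) ht)).comp
    (Realised.push (H := H) (snd X Y))
  refine ⟨a, b, deg_cast (by push_cast; ring) g1, deg_cast ?_ g3, fun x => ?_⟩
  · rw [dim_prod]
    push_cast
    ring
  · rw [g2, g4]
    beta_reduce
    rw [C.proj_right, h2, one_mul]

lemma contains_cast {d e : ℕ} (h : d = e) {P X : 𝒱.Obj} (hx : Contains C d P X) :
    Contains C e P X := h ▸ hx

end contains

lemma exists_dim (h : ∃ T : 𝒱.Obj, T.dim = 1) (n : ℕ) : ∃ T : 𝒱.Obj, T.dim = n + 1 := by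
  obtain ⟨T, hT⟩ := h
  induction n with
  | zero => exact ⟨T, hT⟩
  | succ n ih =>
    obtain ⟨S, hS⟩ := ih
    exact ⟨S.prod T, by rw [dim_prod, hS, hT]⟩

variable (H) in
/-- The classes in `CH^m(P)` which are obtained by self-correspondences of degree zero, the `ν`-th
of which is admissible in degree `2m - ν`. -/
inductive Ev (m : ℕ) (P : 𝒱.Obj) : ℕ → C.A P → Prop
  | nil (z : C.A P) (hz : C.Deg m z) : Ev m P 0 z
  | cons (ν : ℕ) (y : C.A P) (Γ : C.A (P.prod P)) (hy : Ev m P ν y) (hΓ : C.Deg P.dim Γ)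
      (hk : Admissible H Γ (2 * m - ν)) : Ev m P (ν + 1) (C.act Γ y)

lemma run_congr {P : 𝒱.Obj} (Γ Γ' : ℕ → C.A (P.prod P)) (z : C.A P) :
    ∀ n : ℕ, (∀ μ, μ < n → Γ μ = Γ' μ) → run Γ z n = run Γ' z n := by
  intro n
  induction n with
  | zero => intro _; rfl
  | succ n ih =>
    intro h
    rw [run, run, ih fun μ hμ => h μ (by omega), h n (by omega)]

lemma ev_run {m : ℕ} {P : 𝒱.Obj} {n : ℕ} {y : C.A P} (h : Ev H m P n y) :
    ∃ (z : C.A P) (Γ : ℕ → C.A (P.prod P)), C.Deg m z ∧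
      (∀ μ, μ < n → C.Deg P.dim (Γ μ) ∧ Admissible H (Γ μ) (2 * m - μ)) ∧ run Γ z n = y := by
  classical
  induction h with
  | nil z hz => exact ⟨z, fun _ => 0, hz, fun μ h1 => by omega, rfl⟩
  | cons ν y Δ hy hΔ hk ih =>
    obtain ⟨z, Γ, h2, h3, h4⟩ := ih
    refine ⟨z, Function.update Γ ν Δ, h2, fun μ h6 => ?_, ?_⟩
    · by_cases h7 : μ = ν
      · subst h7
        rw [Function.update_self]
        exact ⟨hΔ, hk⟩
      · rw [Function.update_of_ne h7]
        exact h3 μ (by omega)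
    · rw [run, Function.update_self, ← h4]
      congr 1
      refine run_congr _ _ _ _ fun μ hμ => ?_
      rw [Function.update_of_ne (by omega)]

include hC hH in
/-- The transport of a chain to all varieties which contain a certain product. -/
lemma transport (hT : ∃ T : 𝒱.Obj, T.dim = 1) {n : ℕ} {X : 𝒱.Obj} {i : ℕ} {x : C.A X}
    (h : Chain H n X i x) : ∃ M : ℕ, ∀ m, M ≤ m → i ≤ m ∧ ∃ Q : 𝒱.Obj, ∀ (P : 𝒱.Obj) (e : ℕ),
      Contains C e P Q → ∃ (lam : C.A (X.prod P)) (rho : C.A (P.prod X)),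
        C.Deg (X.dim + (m + e) - i) lam ∧ C.Deg (P.dim + i - (m + e)) rho ∧
        (∀ y, C.act rho (C.act lam y) = y) ∧ Ev H (m + e) P n (C.act lam x) := by
  have key : ∀ (X : 𝒱.Obj) (i m : ℕ), i < m → ∃ Q : 𝒱.Obj, ∀ (P : 𝒱.Obj) (e : ℕ),
      Contains C e P Q → ∃ (lam : C.A (X.prod P)) (rho : C.A (P.prod X)),
        C.Deg (X.dim + (m + e) - i) lam ∧ C.Deg (P.dim + i - (m + e)) rho ∧
        (∀ y, C.act rho (C.act lam y) = y) := by
    intro X i m him
    obtain ⟨T, hTd⟩ := exists_dim hT (m - i - 1)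
    refine ⟨X.prod T, fun P e hP => ?_⟩
    obtain ⟨lam, rho, h1, h2, h3⟩ := contains_trans H (contains_twist H (X := X) hTd) hP
    refine ⟨lam, rho, deg_cast ?_ h1, deg_cast ?_ h2, h3⟩
    · have : ((m - i - 1 + 1 + e : ℕ) : ℤ) = m + e - i := by omega
      rw [this]; ring
    · have : ((m - i - 1 + 1 + e : ℕ) : ℤ) = m + e - i := by omega
      rw [this]; ring
  induction h with
  | nil X i x hx =>
    refine ⟨i + 1, fun m hm => ⟨by omega, ?_⟩⟩
    obtain ⟨Q, hQ⟩ := key X i m (by omega)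
    refine ⟨Q, fun P e hP => ?_⟩
    obtain ⟨lam, rho, h1, h2, h3⟩ := hQ P e hP
    refine ⟨lam, rho, h1, h2, h3, .nil _ ?_⟩
    exact act_deg (i := m + e) (deg_cast (by push_cast; ring) h1) hx
  | cons r Z X j i z Γ hz hΓ had ih =>
    obtain ⟨M, hM⟩ := ih
    refine ⟨max M (i + 1), fun m hm => ?_⟩
    obtain ⟨hjm, Q, hQ⟩ := hM m ((le_max_left _ _).trans hm)
    have him : i < m := (le_max_right M (i + 1)).trans hm
    refine ⟨him.le, ?_⟩
    obtain ⟨Q', hQ'⟩ := key X i m him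
    refine ⟨Q.prod Q', fun P e hP => ?_⟩
    obtain ⟨lam', rho', g1, g2, g3, g4⟩ := hQ P e
      (contains_cast (by ring) (contains_trans H (contains_fst H Q Q') hP))
    obtain ⟨lam, rho, h1, h2, h3⟩ := hQ' P e
      (contains_cast (by ring) (contains_trans H (contains_snd H Q Q') hP))
    refine ⟨lam, rho, h1, h2, h3, ?_⟩
    have g2' : rho' ∈ C.gr (P.prod Z) (P.dim + ((j : ℤ) - (m + e))) := deg_cast (by ring) g2
    have r2 : Realised H Z X ((i : ℤ) - j) (C.act Γ) (H.act (H.cl Γ)) :=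
      Realised.of (deg_cast (by ring) hΓ)
    have r3 : Realised H X P ((m : ℤ) + e - i) (C.act lam) (H.act (H.cl lam)) :=
      Realised.of (deg_cast (by ring) h1)
    obtain ⟨Θ, t1, t2, t3⟩ := ((Realised.of (H := H) g2').comp r2).comp r3
    have h4 : C.act Θ (C.act lam' z) = C.act lam (C.act Γ z) := by
      have h5 : C.act Θ (C.act lam' z) = C.act lam (C.act Γ (C.act rho' (C.act lam' z))) := t2 _
      rw [h5, g3]
    rw [← h4]
    refine .cons r _ Θ g4 (deg_cast (by ring) t1) ?_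
    exact adm_comp g2' (by push_cast; ring) had t3

end Run7.h388.BB
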